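import Pool.Agent.helper26.Bog.Main

/-!
# The Bogomolov property of all finite extensions does not pass to `F ^ (d)`

Let `h` be the absolute logarithmic Weil height.  A field of algebraic numbers has the Bogomolov
property (for the multiplicative group) if `h` is bounded below by a positive constant on its
nonzero elements that are not roots of unity.  For an algebraic extension `F` of `ℚ` let
`F ^ (d)` be the compositum of all extensions of `F` of degree at most `d`.

We show that for every number field `K` there is an algebraic extension `F` of `K` all of whose
finite extensions have the Bogomolov property although `F ^ (d)` does not have it for any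
`d ≥ 2`.  This answers the question in the negative.

## The construction

`F = K F_∞` where `F_∞` is the union of a tower `ℚ = F_0 ⊆ F_1 ⊆ ...`, `F_{m+1} = F_m (u_m)`,
`u_m = α_m + 1 / α_m`, of degree three at every step and totally ramified above `3`, such that
`α_m ^ 3` lies in a quadratic extension `F_m (√D)` and has norm one over `F_m`.
Each `α_m` is quadratic over `F`, and `h (α_m)` takes arbitrarily small values because inside a
block with constant `D` one has `α_{m+1} ^ 3 = α_m`.

If `N` is a finite normal extension of `ℚ`, a `3`-adic congruence, the product formula and the
relation `σ τ = τ⁻¹ σ` in the Galois group of `N' F_m (√D, α_m)` over `N' F_m` show that for all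
large `m` every element of `N F_{m+1}` of height less than a constant depending only on
`[N : ℚ]` already lies in `N F_m`; so `N F_∞` has the Bogomolov property.
-/

namespace Pool.Agent.Results.MP_329b50_nt.SmallPointsInF2

open NumberField IntermediateField Module

/-- The Bogomolov property of a set `S` of algebraic numbers: for some `c > 0` every nonzero
element of `S` that is not a root of unity has absolute logarithmic Weil height at least `c`. -/
def Bogomolov (S : Set (AlgebraicClosure ℚ)) : Prop :=
  ∃ c : ℝ, 0 < c ∧ ∀ x ∈ S, x ≠ 0 → (∀ n : ℕ, 0 < n → x ^ n ≠ 1) → c ≤ absLogHeight₁ x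

/-- The compositum of all extensions of `F` of degree at most `d`. -/
noncomputable def compositum (F : IntermediateField ℚ (AlgebraicClosure ℚ)) (d : ℕ) :
    IntermediateField F (AlgebraicClosure ℚ) :=
  ⨆ L ∈ {L : IntermediateField F (AlgebraicClosure ℚ) | FiniteDimensional F L ∧ finrank F L ≤ d}, L

/-- Every number field `K` has an algebraic extension `F` such that every finite extension of `F`
has the Bogomolov property, but `F ^ (d)` does not have it for any `d ≥ 2`. -/
theorem result (K : IntermediateField ℚ (AlgebraicClosure ℚ)) [FiniteDimensional ℚ K] :
    ∃ F : IntermediateField ℚ (AlgebraicClosure ℚ), K ≤ F ∧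
      (∀ L : IntermediateField F (AlgebraicClosure ℚ), FiniteDimensional F L →
        Bogomolov (L : Set (AlgebraicClosure ℚ))) ∧
      ∀ d : ℕ, 2 ≤ d → ¬ Bogomolov (compositum F d : Set (AlgebraicClosure ℚ)) := by
  have : Algebra.IsAlgebraic ℚ (AlgebraicClosure ℚ) := AlgebraicClosure.isAlgebraic ℚ
  exact Pool.Agent.helper26.Bog.main K

end Pool.Agent.Results.MP_329b50_nt.SmallPointsInF2
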